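import Pool.Agent.W533.PP.Stm

/-!
Part PSUM (copy 2) of project PP.
-/

set_option autoImplicit false

namespace Pool.Agent.W89.PP

open Finset
open scoped Classical
open Pool.Agent.W533.PP

theorem psum (h1 : PLAB) (h2 : RANK) (h3 : RANKU) : PSUM := by
  intro n τ hτ m
  set L := (τ (Fin.last n)).val with hL'
  have hLn : L ≤ n := by
    have := (τ (Fin.last n)).isLt; omega
  set low := (Finset.range (L + 1)).filter (fun s => Act τ s) with hlow
  set high := (Finset.Ico (L + 1) (n+2)).filter (fun s => Act τ s) with hhigh
  have hh : hL τ = low.card := rfl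
  have hk : kL τ = high.card := rfl
  have hdisj : Disjoint low high := by
    rw [Finset.disjoint_left]
    intro a ha hb
    simp only [hlow, hhigh, Finset.mem_filter, Finset.mem_range, Finset.mem_Ico] at ha hb
    omega
  have haS : aS τ = low ∪ high := by
    ext a
    simp only [aS, hlow, hhigh, Finset.mem_filter, Finset.mem_range, Finset.mem_Ico,
      Finset.mem_union]
    constructor
    · rintro ⟨h, h'⟩
      by_cases hc : a < L + 1
      · exact Or.inl ⟨hc, h'⟩
      · exact Or.inr ⟨⟨by omega, h⟩, h'⟩
    · rintro (⟨h, h'⟩ | ⟨⟨_, h⟩, h'⟩)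
      · exact ⟨by omega, h'⟩
      · exact ⟨h, h'⟩
  have hcard : (aS τ).card = hL τ + kL τ := by
    rw [haS, Finset.card_union_of_disjoint hdisj, hh, hk]
  let G : ℕ → ℕ := fun s => if s ≤ L then
      T m (((aS τ).filter (fun x => x ≤ s)).card) (((aS τ).filter (fun x => s ≤ x)).card)
    else T m (hL τ + 1) (((aS τ).filter (fun x => s ≤ x)).card)
  have e1 : ∑ v ∈ (Finset.univ : Finset (Fin (n+2))).filter (fun v => Act τ v.val),
      T m (hL (ins v τ)) (kL (ins v τ)) = ∑ s ∈ aS τ, G s := by
    have e2 : ∑ v ∈ (Finset.univ : Finset (Fin (n+2))).filter (fun v => Act τ v.val),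
      T m (hL (ins v τ)) (kL (ins v τ)) =
        ∑ v ∈ (Finset.univ : Finset (Fin (n+2))).filter (fun v => Act τ v.val), G v.val := by
      refine Finset.sum_congr rfl fun v hv => ?_
      have hv' : Act τ v.val := (Finset.mem_filter.1 hv).2
      obtain ⟨ha, hb⟩ := h1 n τ hτ v hv'
      by_cases hc : v.val ≤ L
      · obtain ⟨p, q⟩ := ha hc
        simp only [G, if_pos hc, p, q]
      · obtain ⟨p, q⟩ := hb (not_le.1 hc)
        simp only [G, if_neg hc, p, q]
    rw [e2, Finset.sum_filter, Fin.sum_univ_eq_sum_range (fun s => if Act τ s then G s else 0),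
      ← Finset.sum_filter]
    rfl
  rw [e1, haS, Finset.sum_union hdisj, T_succ]
  have hsum : ∀ s ∈ aS τ, ((aS τ).filter (fun x => x ≤ s)).card +
      ((aS τ).filter (fun x => s ≤ x)).card = hL τ + kL τ + 1 := by
    intro s hs
    rw [← hcard, ← Finset.card_union_add_card_inter]
    have hu : (aS τ).filter (fun x => x ≤ s) ∪ (aS τ).filter (fun x => s ≤ x) = aS τ := by
      ext a
      simp only [Finset.mem_union, Finset.mem_filter]
      constructor
      · rintro (⟨h, _⟩ | ⟨h, _⟩) <;> exact h
      · intro h
        rcases le_total a s with h' | h'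
        · exact Or.inl ⟨h, h'⟩
        · exact Or.inr ⟨h, h'⟩
    have hi : (aS τ).filter (fun x => x ≤ s) ∩ (aS τ).filter (fun x => s ≤ x) = {s} := by
      ext a
      simp only [Finset.mem_inter, Finset.mem_filter, Finset.mem_singleton]
      constructor
      · rintro ⟨⟨_, h⟩, ⟨_, h'⟩⟩; exact le_antisymm h h'
      · rintro rfl; exact ⟨⟨hs, le_refl _⟩, ⟨hs, le_refl _⟩⟩
    rw [hu, hi, Finset.card_singleton]
  congr 1
  · -- low
    have key := h2 low (fun r => T m r (hL τ + kL τ + 1 - r))
    have e3 : ∑ s ∈ low, G s = ∑ v ∈ low,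
        (fun r => T m r (hL τ + kL τ + 1 - r)) ((low.filter (fun s => s ≤ v)).card) := by
      refine Finset.sum_congr rfl fun s hs => ?_
      have hsL : s ≤ L := by
        simp only [hlow, Finset.mem_filter, Finset.mem_range] at hs; omega
      have hsa : s ∈ aS τ := by rw [haS]; exact Finset.mem_union_left _ hs
      have h5 := hsum s hsa
      have h6 : (aS τ).filter (fun x => x ≤ s) = low.filter (fun x => x ≤ s) := by
        rw [haS, Finset.filter_union]
        have : high.filter (fun x => x ≤ s) = ∅ := by
          rw [Finset.filter_eq_empty_iff]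
          intro a ha
          simp only [hhigh, Finset.mem_filter, Finset.mem_Ico] at ha
          omega
        rw [this, Finset.union_empty]
      simp only [G, if_pos hsL]
      rw [← h6]
      congr 1
      omega
    rw [e3, key, hh]
    refine Finset.sum_congr rfl fun j hj => ?_
    show T m (j+1) _ = T m (j+1) _
    congr 1
    have := Finset.mem_range.1 hj
    omega
  · have key := h3 high (fun i => T m (hL τ + 1) i)
    have e3 : ∑ s ∈ high, G s = ∑ v ∈ high,
        (fun i => T m (hL τ + 1) i) ((high.filter (fun s => v ≤ s)).card) := by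
      refine Finset.sum_congr rfl fun s hs => ?_
      have hsL : ¬ s ≤ L := by
        simp only [hhigh, Finset.mem_filter, Finset.mem_Ico] at hs; omega
      have h6 : (aS τ).filter (fun x => s ≤ x) = high.filter (fun x => s ≤ x) := by
        rw [haS, Finset.filter_union]
        have : low.filter (fun x => s ≤ x) = ∅ := by
          rw [Finset.filter_eq_empty_iff]
          intro a ha
          simp only [hlow, Finset.mem_filter, Finset.mem_range] at ha
          omega
        rw [this, Finset.empty_union]
      simp only [G, if_neg hsL]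
      rw [h6]
    rw [e3, key, hk]

end Pool.Agent.W89.PP
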